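import Mathlib
import Pool.Agent.H10.PatA

set_option autoImplicit false

namespace Pool.Agent.Results.MP_956764_co.Values
open Pool.Agent.H10.Pat

theorem result (L V : ℕ) (hL : 1 ≤ L) (hV : V < 2 ^ L) :
    (∀ d ≥ 1, 1 ≤ A L V 0 d ∧ (Even (A L V 0 d) → A L V 0 d ≤ 2 ^ L)) ∧
    (V ≠ 0 → ∀ l, Odd l → ∃ d ≥ 1, A L V 0 d = l) ∧
    (Odd V → {a | ∃ d ≥ 1, A L V 0 d = a} = {a | Odd a}) ∧
    (V = 0 → ∀ d ≥ 1, A L V 0 d ≤ 2 ^ L) := by
  obtain ⟨M, rfl⟩ := Nat.exists_eq_add_of_le' hL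
  have p := Nat.two_pow_pos M
  have z : V = 0 → ∀ d ≥ 1, ∃ l ≤ 2 * 2 ^ M, (e (M + 1) V (l * d) : ZMod 2) = 1 := fun h d d0 =>
    small d0 p (by rw [← pow_succ', Nat.mul_mod_right, h])
  have ne : ∀ d ≥ 1, A (M + 1) V 0 d ∈
      {l | 1 ≤ l ∧ ¬ e (M + 1) V (0 + l * d) ≡ e (M + 1) V 0 [MOD 2]} := fun d d0 =>
    Nat.sInf_mem ((em (V = 0)).elim (fun h => (z h d d0).imp fun l r => (mem ..).2 r.2) fun h =>
      ((pack h hV).1 d (by omega)).elim fun l r => ⟨l * 2 ^ (M + 1), (mem ..).2 (by rwa [mul_right_comm])⟩)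
  have le : ∀ d l, (e (M + 1) V (l * d) : ZMod 2) = 1 → A (M + 1) V 0 d ≤ l := fun d l r =>
    Nat.sInf_le ((mem ..).2 r)
  have ev : ∀ d ≥ 1, ∀ j, A (M + 1) V 0 d = 2 * j → 2 * j * d % 2 ^ (M + 1) = V := fun d d0 j h => by
    have a := ne d d0
    have j0 : 1 ≤ j := by have := a.1; omega
    rw [mem, h, half d0 j0] at a
    by_contra r
    have := le d j (by simpa [r] using a)
    omega
  have od : V ≠ 0 → ∀ l, Odd l → ∃ d ≥ 1, A (M + 1) V 0 d = l := fun h l o => by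
    obtain ⟨d, a, b⟩ := (pack h hV).2 l o
    have d0 : 1 ≤ d * 2 ^ (M + 1) := Nat.pos_of_ne_zero fun r => by simp [mul_assoc, r, e0] at a
    refine ⟨_, d0, (le _ l (by rwa [← mul_assoc])).eq_of_not_lt fun r => ?_⟩
    simpa [← mul_assoc, b _ r] using (mem ..).1 (ne _ d0)
  refine ⟨fun d d0 => ⟨(ne d d0).1, fun ⟨j, h⟩ => ?_⟩, od, fun o => Set.ext fun a =>
    ⟨?_, od o.pos.ne' a⟩, fun h d d0 => (z h d d0).elim fun l r => (le d l r.2).trans (pow_succ' 2 M ▸ r.1)⟩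
  · have a := ev d d0 j (by omega)
    obtain ⟨l, x, y⟩ := small (L := M + 1) (V := V) (j := (j + (2 ^ M - 1)) % 2 ^ M + 1) d0 (by omega) (by
      rw [← a, pow_succ']
      refine (Nat.ModEq.mul_left' 2 ?_).mul_right d
      rw [Nat.ModEq, Nat.mod_add_mod, add_assoc, Nat.sub_add_cancel p, Nat.add_mod_right])
    have := Nat.mod_lt (j + (2 ^ M - 1)) p
    have := le d l y
    omega
  · rintro ⟨d, d0, rfl⟩
    refine Nat.not_even_iff_odd.1 fun ⟨j, h⟩ => ?_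
    have a := congrArg (· % 2) (ev d d0 j (by omega))
    simp only [Nat.mod_mod_of_dvd _ (dvd_pow_self 2 M.succ_ne_zero), mul_assoc, Nat.mul_mod_right,
      Nat.odd_iff.1 o] at a
    omega

end Pool.Agent.Results.MP_956764_co.Values
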